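import Mathlib
import Pool.Agent.N151.LG.FinPair

/-!
# Groups with elements of orders 2 and 3 and without elements of order 6

Let `G` be a group in which the order of every element is a power of 2 or a power of 3 (there is no
bound on the orders), and let `G` have elements of order 2 and elements of order 3.

* `G` is locally finite if and only if every subgroup generated by an element of order 2 and an
  element of order 3 is finite and the centralizer of some element of order 3 is locally finite;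
  finite may be replaced by soluble, or by `(t x)³ = 1` or `[t, x]³ = 1` for the generators.
* If the orders of the 3-elements divide 9 (or `3 ^ (b + 1)`, where the groups of exponent `3 ^ b`
  are locally finite), the condition on the centralizer can be omitted.

The proof uses the theorems of Burnside and Sanov for the exponents 3 and 4, Burnside's theorem on
groups of order `2 ^ a * 3 ^ b`, the starting file `ProductOrQuotientOfOrderThree` and coset
enumerations checked by the kernel.
-/

universe u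

namespace Pool.Agent.Results.MP_544bd1_al.NoElementsOfOrderSix

open scoped commutatorElement

/-- the order of every element of `G` is a power of 2 or a power of 3 -/
def Orders (G : Type u) [Group G] : Prop :=
  ∀ g : G, ∃ k : ℕ, orderOf g = 2 ^ k ∨ orderOf g = 3 ^ k

/-- every finitely generated subgroup of `G` is finite -/
def LocallyFinite (G : Type u) [Group G] : Prop :=
  ∀ F : Subgroup G, F.FG → Finite F

/-- every group satisfying `x ^ n = 1` is locally finite -/
def InL (n : ℕ) : Prop :=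
  ∀ (G : Type u) [Group G], (∀ g : G, g ^ n = 1) → LocallyFinite G

/-- the centralizer of some element of order 3 is locally finite -/
def CentralizerLF (G : Type u) [Group G] : Prop :=
  ∃ x : G, orderOf x = 3 ∧ LocallyFinite (Subgroup.centralizer ({x} : Set G))

open Pool.Agent.N151.LG Pool.Agent.N151.LF

theorem lfin_of {G : Type u} [Group G] {H : Subgroup G} (h : LocallyFinite H) : LFin H := by
  intro F hFH hF
  have hfg : Group.FG F := (Group.fg_iff_subgroup_fg F).mpr hF
  have e := Subgroup.subgroupOfEquivOfLe hFH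
  have h1 : Group.FG (F.subgroupOf H) := Group.fg_of_surjective (f := e.symm.toMonoidHom)
    e.symm.surjective
  have h2 : Finite (F.subgroupOf H) := h _ ((Group.fg_iff_subgroup_fg _).mp h1)
  exact Finite.of_equiv _ e.toEquiv

theorem sub_of {G : Type u} [Group G] (h : LocallyFinite G) (H : Subgroup G) :
    LocallyFinite H := by
  intro F hF
  have h1 : Finite (F.map H.subtype) := h _ (fg_map hF _)
  exact Finite.of_equiv _ (F.equivMapOfInjective H.subtype H.subtype_injective).symm.toEquiv

theorem finexp_of {b : ℕ} (hb : b ≤ 1 ∨ InL.{u} (3 ^ b)) : FinExp.{u} (3 ^ b) := by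
  intro Q _ hfg hQ
  rcases hb with hb | hb
  · have h3 : ∀ q : Q, q ^ 3 = 1 := by
      intro q
      have h1 : 3 = 3 ^ b * 3 ^ (1 - b) := by
        rw [← pow_add]
        have : b + (1 - b) = 1 := by omega
        rw [this, pow_one]
      rw [h1, pow_mul, hQ, one_pow]
    exact H15.Struct.finite_exp3 hfg h3
  · have h1 : Finite (⊤ : Subgroup Q) := hb Q hQ _ ((Group.fg_def).mp hfg)
    exact Finite.of_equiv _ Subgroup.topEquiv.toEquiv

theorem result (G : Type u) [Group G] (hG : Orders G) (h2 : ∃ t : G, orderOf t = 2)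
    (h3 : ∃ x : G, orderOf x = 3) :
    (LocallyFinite G ↔ CentralizerLF G ∧ ∀ t x : G, orderOf t = 2 → orderOf x = 3 →
      Finite (Subgroup.closure ({t, x} : Set G))) ∧
    (LocallyFinite G ↔ CentralizerLF G ∧ ∀ t x : G, orderOf t = 2 → orderOf x = 3 →
      Group.IsSolvable (Subgroup.closure ({t, x} : Set G))) ∧
    (LocallyFinite G ↔ CentralizerLF G ∧ ∀ t x : G, orderOf t = 2 → orderOf x = 3 →
      (t * x) ^ 3 = 1 ∨ ⁅t, x⁆ ^ 3 = 1) ∧
    (∀ b : ℕ, b ≤ 1 ∨ InL.{u} (3 ^ b) →
      (∀ g : G, (∃ k : ℕ, orderOf g = 3 ^ k) → g ^ 3 ^ (b + 1) = 1) →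
      (LocallyFinite G ↔ ∀ t x : G, orderOf t = 2 → orderOf x = 3 →
        Finite (Subgroup.closure ({t, x} : Set G))) ∧
      (LocallyFinite G ↔ ∀ t x : G, orderOf t = 2 → orderOf x = 3 →
        Group.IsSolvable (Subgroup.closure ({t, x} : Set G))) ∧
      (LocallyFinite G ↔ ∀ t x : G, orderOf t = 2 → orderOf x = 3 →
        (t * x) ^ 3 = 1 ∨ ⁅t, x⁆ ^ 3 = 1)) := by
  have hO : Pool.Agent.N151.LG.Ord G := by
    intro g
    obtain ⟨k, hk | hk⟩ := hG g
    · right; exact ⟨k, by rw [← hk, pow_orderOf_eq_one]⟩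
    · left; exact ⟨k, by rw [← hk, pow_orderOf_eq_one]⟩
  -- trivial generators
  have hfin : ∀ t x : G, t * t = 1 → x ^ 3 = 1 → orderOf t ≠ 2 ∨ orderOf x ≠ 3 → t = 1 ∨ x = 1 := by
    intro t x ht hx h
    rcases h with h | h
    · left
      by_contra h1
      exact h (orderOf_eq_prime (by rw [sq]; exact ht) h1)
    · right
      by_contra h1
      exact h (orderOf_eq_prime hx h1)
  have hcomm : ∀ t x : G, orderOf t = 2 → ⁅t, x⁻¹⁆ = t * x⁻¹ * t * x := by
    intro t x ht
    have : t⁻¹ = t := by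
      rw [inv_eq_iff_mul_eq_one, ← sq, ← ht, pow_orderOf_eq_one]
    rw [commutatorElement_def, this, inv_inv]
  have hHF : (∀ t x : G, orderOf t = 2 → orderOf x = 3 → (t * x) ^ 3 = 1 ∨ ⁅t, x⁆ ^ 3 = 1) →
      HF G := by
    intro h t x ht hx
    by_cases hd : orderOf t = 2 ∧ orderOf x = 3
    · have hxi : orderOf x⁻¹ = 3 := by rw [orderOf_inv]; exact hd.2
      have h4 := h t x⁻¹ hd.1 hxi
      rw [hcomm t x hd.1] at h4
      rcases h4 with h4 | h4
      · left
        have := cube_sinv ht h4
        rwa [inv_inv] at this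
      · right; exact h4
    · rcases hfin t x ht hx (by tauto) with h4 | h4
      · left; rw [h4, one_mul]; exact hx
      · right; rw [h4, inv_one, mul_one, mul_one, ht, one_pow]
  have ht' : ∃ t : G, t * t = 1 ∧ t ≠ 1 := by
    obtain ⟨t, ht⟩ := h2
    refine ⟨t, ?_, ?_⟩
    · rw [← sq, ← ht, pow_orderOf_eq_one]
    · rintro rfl; simp at ht
  have hx' : ∀ x : G, orderOf x = 3 → x ^ 3 = 1 ∧ x ≠ 1 := by
    intro x hx
    refine ⟨?_, ?_⟩
    · rw [← hx, pow_orderOf_eq_one]
    · rintro rfl; simp at hx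
  have hsol : (∀ t x : G, orderOf t = 2 → orderOf x = 3 →
      Group.IsSolvable (Subgroup.closure ({t, x} : Set G))) →
      ∀ t x : G, orderOf t = 2 → orderOf x = 3 → (t * x) ^ 3 = 1 ∨ ⁅t, x⁆ ^ 3 = 1 := by
    intro h t x ht hx
    have hxi : orderOf x⁻¹ = 3 := by rw [orderOf_inv]; exact hx
    obtain ⟨n, hn⟩ := (Group.isSolvable_def _).mp (h t x⁻¹ ht hxi)
    have htm : t ∈ Subgroup.closure ({t, x⁻¹} : Set G) := Subgroup.subset_closure (by simp)
    have hxm : x⁻¹ ∈ Subgroup.closure ({t, x⁻¹} : Set G) := Subgroup.subset_closure (by simp)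
    have ht2 : t * t = 1 := by rw [← sq, ← ht, pow_orderOf_eq_one]
    have hx3 : x⁻¹ ^ 3 = 1 := by rw [← hxi, pow_orderOf_eq_one]
    have h1 := hf_solv n _ hn (hO.sub _) ⟨t, htm⟩ ⟨x⁻¹, hxm⟩ (Subtype.ext ht2)
      (Subtype.ext hx3)
    rcases h1 with h1 | h1
    · left
      have h5 : (t * x⁻¹) ^ 3 = 1 := congrArg Subtype.val h1
      have := cube_sinv ht2 h5
      rwa [inv_inv] at this
    · right
      have h5 : (t * x⁻¹⁻¹ * t * x⁻¹) ^ 3 = 1 := congrArg Subtype.val h1
      have h6 := hcomm t x⁻¹ ht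
      rw [inv_inv] at h6
      rw [h6]
      rwa [inv_inv] at h5
  have hfs : (∀ t x : G, orderOf t = 2 → orderOf x = 3 →
      Finite (Subgroup.closure ({t, x} : Set G))) →
      ∀ t x : G, orderOf t = 2 → orderOf x = 3 →
      Group.IsSolvable (Subgroup.closure ({t, x} : Set G)) := by
    intro h t x ht hx
    have := h t x ht hx
    exact solvable_of_finite (hO.sub _)
  have hlf : LocallyFinite G → ∀ t x : G, orderOf t = 2 → orderOf x = 3 →
      Finite (Subgroup.closure ({t, x} : Set G)) := by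
    intro h t x _ _
    classical
    refine h _ ?_
    exact ⟨{t, x}, by simp⟩
  have hlc : LocallyFinite G → CentralizerLF G := by
    intro h
    obtain ⟨x, hx⟩ := h3
    exact ⟨x, hx, sub_of h _⟩
  -- the general case
  have hmain : CentralizerLF G → HF G → LocallyFinite G := by
    rintro ⟨x, hx, hC⟩ hF F hFG
    exact lf_main_c hO hF ht' (hx' x hx).1 (hx' x hx).2 (lfin_of hC) F le_top hFG
  refine ⟨⟨fun h => ⟨hlc h, hlf h⟩, fun h => hmain h.1 (hHF (hsol (hfs h.2)))⟩,
    ⟨fun h => ⟨hlc h, hfs (hlf h)⟩, fun h => hmain h.1 (hHF (hsol h.2))⟩,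
    ⟨fun h => ⟨hlc h, hsol (hfs (hlf h))⟩, fun h => hmain h.1 (hHF h.2)⟩, ?_⟩
  intro b hb hbd
  have hBd : Bd G (3 ^ b) := by
    rintro g ⟨j, hj⟩
    rw [← pow_succ']
    apply hbd
    obtain ⟨k, _, hk⟩ := (Nat.dvd_prime_pow Nat.prime_three).mp (orderOf_dvd_of_pow_eq_one hj)
    exact ⟨k, hk⟩
  have hmain' : HF G → LocallyFinite G := by
    intro hF F hFG
    obtain ⟨x, hx⟩ := h3
    exact lf_main hO hBd (finexp_of hb) hF ht' ⟨x, hx' x hx⟩ F le_top hFG
  exact ⟨⟨hlf, fun h => hmain' (hHF (hsol (hfs h)))⟩, ⟨fun h => hfs (hlf h), fun h =>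
    hmain' (hHF (hsol h))⟩, ⟨fun h => hsol (hfs (hlf h)), fun h => hmain' (hHF h)⟩⟩

end Pool.Agent.Results.MP_544bd1_al.NoElementsOfOrderSix
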