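import Mathlib
import Pool.Agent.N6.PfL

/-!
# Two generators, one of prime power order, decide local finiteness

The earlier results `TwoGenerators` and `TwoGeneratorsElementOrders` assume that all two-generator
subgroups `⟨x, y⟩` are finite.  Here this is only assumed if `y` has prime power order, so that
`B_{2,n}` is replaced by its quotients by the normal closures of `x₁ ^ p ^ k`, `p ^ k ∣ n`.

1. (`Pool.Agent.N6.PfA`.)  Let `n = M q ^ β`, `q` prime to `M`.  If an element `e` lies in the largest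
normal subgroup of exponent dividing `M` of the centraliser of a `q`-element `g`, then it lies in that
of `G`.  The earlier proof used the finite subgroups `⟨g e, z⟩` for all `z` with `z ^ M = 1`.  Now one
may assume that `e` has prime power order (its powers of prime power order generate `⟨e⟩`); then
`E = ⟨e, z⟩` is finite, and in the finite soluble group `E` it is enough to compare `e` with the
`q`-elements `z'` of `E`, in the finite group `⟨g e, z'⟩`.

2. (`Pool.Agent.N6.PfB`, `Pool.Agent.N6.PfC`.)  Let `w` be a `q`-element which lies in `O_{q',q}(E)`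
for all finite soluble `E` containing it, and `U` a minimal finite `s`-group with an action of `w` which
is not trivial.  The earlier proof that `w` has no fixed points on `U` used `⟨e w, g u⟩` for elements
`g` with `⟨e, g e g⁻¹⟩` not of exponent dividing `M`; now the centraliser theorem of 1 is used, for the
groups `⟨w z, u⟩`, `z` an element commuting with `w`, `u` in `U`.

3. (`Pool.Agent.N6.PfD`, `Pool.Agent.N6.PfE`.)  The exceptional case of the theorem of Hall and Higman
for the prime `2`: in the configuration `(V, L, x)` only the pairs `s, x v` occur, and `x v` is a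
`2`-element.

4. (`Pool.Agent.N6.PfF`.)  The induction: if `n` is odd and `p` is the least prime whose square divides
`n`, then the elements of order `p` as in 2 act nontrivially only on `s`-groups with `s ^ 2 ∣ n`, and
not if `p ∣ s - 1`.
-/

set_option autoImplicit false

namespace Pool.Agent.Results.MP_544bd1_al.PrimePowerSecondGenerator

open Pool.Agent.H32BU Pool.Agent.TH69.Og Pool.Agent.N6.TrN Pool.Agent.N6.Pf

universe u

/-- `n ∈ 𝓛`: every group satisfying `x ^ n = 1` is locally finite. -/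
def InL (n : ℕ) : Prop := ∀ (G : Type u) [Group G], (∀ x : G, x ^ n = 1) →
  ∀ S : Set G, S.Finite → Finite (Subgroup.closure S)

/-- Every prime power greater than `4` dividing `n` is in `𝓛`. -/
def PrimePowersInL (n : ℕ) : Prop :=
  ∀ p k : ℕ, p.Prime → p ^ k ∣ n → 4 < p ^ k → InL.{u} (p ^ k)

/-- The largest group of exponent dividing `n` generated by two elements `x₀, x₁` with
`x₁ ^ s = 1`: the quotient of the free Burnside group `B_{2,n}` by the normal closure of `x₁ ^ s`. -/
abbrev P (n s : ℕ) : Type :=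
  FreeGroup (Fin 2) ⧸ Subgroup.normalClosure
    ((Set.range fun w : FreeGroup (Fin 2) => w ^ n) ∪ {FreeGroup.of 1 ^ s})

/-- The element `y` has prime power order (`y = 1` is allowed). -/
def PrimePowerOrder {G : Type u} [Group G] (y : G) : Prop := ∃ p k : ℕ, p.Prime ∧ y ^ p ^ k = 1

/-- The condition on `n`: if `p < q` are odd primes whose squares divide `n`, then `p` divides
`q - 1`. -/
def SquareCondition (n : ℕ) : Prop := ∀ p q : ℕ, p.Prime → q.Prime → 2 < p → p < q →
  p ^ 2 ∣ n → q ^ 2 ∣ n → p ∣ q - 1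

/-- `m` is exceptional for `n`: `m ≥ 2`, `2 ^ m - 1` is a prime, and `n` is divisible by
`2 ^ m * (2 ^ m - 1) ^ 2`. -/
def Exceptional (n m : ℕ) : Prop :=
  2 ≤ m ∧ (2 ^ m - 1).Prime ∧ 2 ^ m * (2 ^ m - 1) ^ 2 ∣ n

/-- The `2`-length of `K` is at most one: there are normal subgroups `A ≤ B` of `K` such that the
elements of `A` and of `K / B` have odd order and `B / A` is a `2`-group. -/
def TwoLengthAtMostOne (K : Type u) [Group K] : Prop := ∃ A B : Subgroup K, A.Normal ∧ B.Normal ∧
  A ≤ B ∧ (∀ x ∈ A, Odd (orderOf x)) ∧ (∀ x ∈ B, ∃ k : ℕ, x ^ 2 ^ k ∈ A) ∧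
  ∀ x : K, ∃ k : ℕ, Odd k ∧ x ^ k ∈ B

/-- The condition on the group `G`: it has no element of order `2 ^ m * (2 ^ m - 1)` for any `m` which
is exceptional for `n`, or all its subgroups `⟨x, y⟩`, `y` of prime power order, have `2`-length at
most one. -/
def GroupCondition (n : ℕ) (G : Type u) [Group G] : Prop :=
  (∀ m : ℕ, Exceptional n m → ∀ g : G, orderOf g ≠ 2 ^ m * (2 ^ m - 1)) ∨
    ∀ x y : G, PrimePowerOrder y → TwoLengthAtMostOne (Subgroup.closure {x, y})

theorem gd_of {n : ℕ} {G : Type u} [Group G] (h : GroupCondition n G) : GdP n G :=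
  h.imp (fun h m h1 h2 h3 => h m ⟨h1, h2, h3⟩) id

theorem main {n : ℕ} (hn : 1 ≤ n) (hS : SquareCondition n) (G : Type u) [Group G]
    (hG : ∀ x : G, x ^ n = 1) (h2 : ∀ x y : G, PrimePowerOrder y → Finite (Subgroup.closure {x, y}))
    (hs : n.primeFactors.card ≤ 2 ∨
      ∀ x y : G, PrimePowerOrder y → Group.IsSolvable (Subgroup.closure {x, y}))
    (hC : GroupCondition n G) :
    (Nontrivial G → ∃ p k : ℕ, p.Prime ∧ p ^ k ∣ n ∧
      ∃ N : Subgroup G, N.Normal ∧ N ≠ ⊥ ∧ ∀ x ∈ N, x ^ p ^ k = 1) ∧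
    (PrimePowersInL.{u} n → ∀ S : Set G, S.Finite → Finite (Subgroup.closure S)) := by
  have hn0 : n ≠ 0 := by omega
  have T : TrF n := trF_of hn0 hS
  exact ⟨fun hnt => exists_normalF T G hG h2 hs (gd_of hC) hnt, fun hL S hS =>
    lf_trF_u hn0 T (locfin_qp hL) G hG h2 hs (gd_of hC) S hS⟩

theorem p_finite_of_inL {n : ℕ} (h : InL.{u} n) (s : ℕ) : Finite (P n s) :=
  bq_finite ((inL_iff x_LFD n).1 h) s

theorem crit {n : ℕ} (hn : 1 ≤ n) (hS : SquareCondition n) (hE : ∀ m : ℕ, ¬ Exceptional n m)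
    (hs : n.primeFactors.card ≤ 2 ∨
      ∀ p k : ℕ, p.Prime → p ^ k ∣ n → Group.IsSolvable (P n (p ^ k))) :
    InL.{u} n ↔ PrimePowersInL.{u} n ∧ ∀ p k : ℕ, p.Prime → p ^ k ∣ n → Finite (P n (p ^ k)) := by
  refine ⟨fun h => ⟨?_, fun p k _ _ => p_finite_of_inL h _⟩, ?_⟩
  · rintro p k - ⟨c, hc⟩ - G _ hG
    exact h G fun x => by rw [hc, pow_mul, hG, one_pow]
  · rintro ⟨h1, h2⟩
    have hn0 : n ≠ 0 := by omega
    exact (inL_iff x_LFD _).2 (locfin_trF hn0 (trF_of hn0 hS)
      (fun m h3 h4 h5 => hE m ⟨h3, h4, h5⟩) (locfin_qp h1) hs h2)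

theorem p_mono {n s t : ℕ} (hst : s ∣ t) (h : Finite (P n t)) : Finite (P n s) := by
  obtain ⟨c, rfl⟩ := hst
  have hle : Subgroup.normalClosure
      ((Set.range fun w : FreeGroup (Fin 2) => w ^ n) ∪ {FreeGroup.of 1 ^ (s * c)}) ≤
      (QuotientGroup.mk' (Subgroup.normalClosure
        ((Set.range fun w : FreeGroup (Fin 2) => w ^ n) ∪ {FreeGroup.of 1 ^ s}))).ker := by
    rw [QuotientGroup.ker_mk']
    apply Subgroup.normalClosure_le_normal
    rintro _ (h | h)
    · exact Subgroup.subset_normalClosure (Or.inl h)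
    · rw [Set.mem_singleton_iff.1 h, pow_mul]
      have h5 : (FreeGroup.of 1 ^ s : FreeGroup (Fin 2)) ∈ Subgroup.normalClosure
          ((Set.range fun w : FreeGroup (Fin 2) => w ^ n) ∪ {FreeGroup.of 1 ^ s}) :=
        Subgroup.subset_normalClosure (Or.inr rfl)
      exact Subgroup.pow_mem _ h5 c
  refine Finite.of_surjective (QuotientGroup.lift _ (QuotientGroup.mk' (Subgroup.normalClosure
    ((Set.range fun w : FreeGroup (Fin 2) => w ^ n) ∪ {FreeGroup.of 1 ^ s})))
    (fun w hw => hle hw) : P n (s * c) →* P n s) ?_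
  intro x
  obtain ⟨w, rfl⟩ := QuotientGroup.mk_surjective x
  exact ⟨(w : P n (s * c)), rfl⟩

theorem dvd12 {p k : ℕ} (hp : p.Prime) (h : p ^ k ∣ 12) : p ^ k ∣ 4 ∨ p ^ k ∣ 3 := by
  by_cases h2 : p = 2
  · left
    subst h2
    have h3 : Nat.Coprime (2 ^ k) 3 := Nat.Coprime.pow_left _ (by norm_num)
    exact h3.dvd_of_dvd_mul_right (show 2 ^ k ∣ 4 * 3 from h)
  · right
    have h3 : Nat.Coprime (p ^ k) (2 ^ 2) := Nat.Coprime.pow _ _
      ((Nat.coprime_primes hp Nat.prime_two).2 h2)
    exact h3.dvd_of_dvd_mul_left (show p ^ k ∣ 2 ^ 2 * 3 from h)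

theorem sq12 : SquareCondition 12 := by
  have := sqP_small (m := 3) (by decide) (by norm_num) (by norm_num) 2
  exact this

theorem exc12 (m : ℕ) : ¬ Exceptional 12 m := by
  rintro ⟨h1, h2, h3⟩
  have h4 : 2 ^ 2 ≤ 2 ^ m := Nat.pow_le_pow_right (by norm_num) h1
  have h5 : 3 ^ 2 ≤ (2 ^ m - 1) ^ 2 := Nat.pow_le_pow_left (by omega) 2
  have h6 : 2 ^ 2 * 3 ^ 2 ≤ 2 ^ m * (2 ^ m - 1) ^ 2 := Nat.mul_le_mul h4 h5
  have h7 := Nat.le_of_dvd (by norm_num) h3
  omega

theorem card12 : (12 : ℕ).primeFactors.card ≤ 2 := by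
  have h : (12 : ℕ).primeFactors ⊆ {2, 3} := by
    intro p hp
    have h1 := Nat.prime_of_mem_primeFactors hp
    have h2 : p ∣ 2 ^ 2 * 3 := Nat.dvd_of_mem_primeFactors hp
    rcases h1.dvd_mul.1 h2 with h3 | h3
    · have := (Nat.prime_dvd_prime_iff_eq h1 Nat.prime_two).1 (h1.dvd_of_dvd_pow h3)
      simp [this]
    · have := (Nat.prime_dvd_prime_iff_eq h1 Nat.prime_three).1 h3
      simp [this]
  exact (Finset.card_le_card h).trans (by decide)

theorem pp12 : PrimePowersInL.{u} 12 := by
  intro p k hp hk h4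
  rcases dvd12 hp hk with h | h
  · exact absurd (Nat.le_of_dvd (by norm_num) h) (by omega)
  · exact absurd (Nat.le_of_dvd (by norm_num) h) (by omega)

/-- (0) If `m` is odd, `m < 665` and `m ≠ 225`, then `2 ^ a * m` satisfies `SquareCondition` for all
`a`.
Let `n ≥ 1` satisfy `SquareCondition`.
(1) Let `G` be a group of exponent dividing `n` such that the subgroup `⟨x, y⟩` is finite for all `x`
in `G` and all `y` in `G` of prime power order, and also soluble if `n` has more than two prime
divisors; let `G` satisfy `GroupCondition`. If `G` is nontrivial, then `G` has a nontrivial normal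
subgroup whose exponent divides a prime power dividing `n`. If all prime powers greater than `4`
dividing `n` are in `𝓛`, then `G` is locally finite.
(2) Suppose that no `m` is exceptional for `n`, and that `n` has at most two prime divisors or the
groups `P n (p ^ k)`, `p ^ k ∣ n`, are soluble. Then `n ∈ 𝓛` if and only if all prime powers greater
than `4` dividing `n` are in `𝓛` and the quotients `P n (p ^ k)`, `p ^ k ∣ n`, of the free Burnside
group `B_{2,n}` are finite.
(3) `12 ∈ 𝓛` if and only if the quotients `P 12 4` and `P 12 3` of `B_{2,12}` are finite. Every group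
of exponent dividing `12` in which `⟨x, y⟩` is finite whenever `y ^ 4 = 1` or `y ^ 3 = 1` is locally
finite. -/
theorem result :
    (∀ a m : ℕ, Odd m → m < 665 → m ≠ 225 → SquareCondition (2 ^ a * m)) ∧
    (∀ n : ℕ, 1 ≤ n → SquareCondition n →
      (∀ (G : Type u) [Group G], (∀ x : G, x ^ n = 1) →
        (∀ x y : G, PrimePowerOrder y → Finite (Subgroup.closure {x, y})) →
        (n.primeFactors.card ≤ 2 ∨
          ∀ x y : G, PrimePowerOrder y → Group.IsSolvable (Subgroup.closure {x, y})) →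
        GroupCondition n G →
        (Nontrivial G → ∃ p k : ℕ, p.Prime ∧ p ^ k ∣ n ∧
          ∃ N : Subgroup G, N.Normal ∧ N ≠ ⊥ ∧ ∀ x ∈ N, x ^ p ^ k = 1) ∧
        (PrimePowersInL.{u} n → ∀ S : Set G, S.Finite → Finite (Subgroup.closure S))) ∧
      ((∀ m : ℕ, ¬ Exceptional n m) →
        (n.primeFactors.card ≤ 2 ∨
          ∀ p k : ℕ, p.Prime → p ^ k ∣ n → Group.IsSolvable (P n (p ^ k))) →
        (InL.{u} n ↔ PrimePowersInL.{u} n ∧
          ∀ p k : ℕ, p.Prime → p ^ k ∣ n → Finite (P n (p ^ k))))) ∧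
    (InL.{u} 12 ↔ Finite (P 12 4) ∧ Finite (P 12 3)) ∧
    (∀ (G : Type u) [Group G], (∀ x : G, x ^ 12 = 1) →
      (∀ x y : G, (y ^ 4 = 1 ∨ y ^ 3 = 1) → Finite (Subgroup.closure {x, y})) →
      ∀ S : Set G, S.Finite → Finite (Subgroup.closure S)) := by
  refine ⟨fun a m hm hm2 hm3 => sqP_small hm hm2 hm3 a, fun n hn hS => ⟨fun G _ hG h2 hs hC =>
    main hn hS G hG h2 hs hC, fun hE hs => crit hn hS hE hs⟩, ?_, ?_⟩
  · rw [crit (n := 12) (by norm_num) sq12 exc12 (Or.inl card12)]
    constructor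
    · rintro ⟨-, h⟩
      exact ⟨h 2 2 Nat.prime_two (by norm_num), by
        have := h 3 1 Nat.prime_three (by norm_num)
        rwa [pow_one] at this⟩
    · rintro ⟨h1, h2⟩
      refine ⟨pp12, fun p k hp hk => ?_⟩
      rcases dvd12 hp hk with h | h
      · exact p_mono h h1
      · exact p_mono h h2
  · intro G _ hG h2
    refine (main (n := 12) (by norm_num) sq12 G hG (fun x y hy => h2 x y ?_) (Or.inl card12)
      (Or.inl fun m hm => absurd hm (exc12 m))).2 pp12
    obtain ⟨p, k, hp, hk, hy2⟩ := pp_dvd (hG y) hy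
    rcases dvd12 hp hk with ⟨c, hc⟩ | ⟨c, hc⟩
    · left
      rw [hc, pow_mul, hy2, one_pow]
    · right
      rw [hc, pow_mul, hy2, one_pow]

end Pool.Agent.Results.MP_544bd1_al.PrimePowerSecondGenerator
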