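import Mathlib
import Pool.Agent.N6.PgD
import Pool.Agent.Results.MP_544bd1_al.PrimePowerSecondGenerator

/-!
# Two generators, one of prime order or a `2`-element, decide local finiteness for `n = 2 ^ a * q ^ b`

The result `PrimePowerSecondGenerator` uses the finiteness of the subgroups `⟨x, y⟩` for all `y` of
prime power order.  For the exponents `n = 2 ^ a * q ^ b` it is shown here that among the
`q`-elements `y` those of order `q` suffice, so that one needs the quotients of `B_{2,n}` by the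
normal closures of `x₁ ^ 2 ^ a` and `x₁ ^ q` only; for `n = 2 * q ^ b` the second generator has prime
order.  Moreover, for `n = 5 m`, `m ≥ 2`, the finiteness of the quotient for `x₁ ^ 5` implies
`5 ∈ 𝓛`, so that this condition can be omitted for `n = 10, 15, 20`; for `m ≥ 3` one may even add the
relation `x₀ ^ m = 1`.

Outline (library `Pool.Agent.N6.PgA`, `PgB`, `PgC`, `PgD`).  Let `G` have exponent `n` and no
nontrivial normal subgroup of exponent `2 ^ a` or `q ^ b`.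

1. If an element `e` of order `q` lies in the largest normal `q`-subgroup of the centraliser of a
`2`-element `g`, then it lies in that of `G`: in the finite groups `⟨g e, z⟩`, `z` a `2`-element, `e`
lies in `O_q`, and so it does in the finite groups `⟨e, t⟩`, `t` a `q`-element.  As `G` has no normal
`q`-subgroups, the centralisers of `2`-elements have none (elements of larger order have powers of
order `q`).

2. Let `w` be a `2`-element which lies in `O_{2',2}(E)` for all finite `E` containing it, and `U` a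
minimal finite `q`-group with a nontrivial action of `w`.  For `u` in `U` with `w u ≠ u w` consider
the groups `⟨w z, u w u⁻¹⟩`, `z` a `q`-element commuting with `w`: they contain `w`, `z` and the
commutator of `w` and `u`, hence `U`.  So by 1 no element of `U` different from `1` commutes with `w`;
`U` is elementary abelian, and if `w` is an involution it inverts an element `v` of `U`, which has
order `q`.  The finite groups `⟨v, g w⟩`, `g ∈ ⟨v, g v g⁻¹⟩`, give a contradiction as before.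

3. The powers `w = x ^ 2 ^ (a - 1)` are of this kind by the theorem of Hall and Higman, where the
groups `⟨x, f⟩` are used, `x` a `2`-element; if `q ^ 2` does not divide `n`, the exceptional case is
treated as in `PrimePowerSecondGenerator`, with elements of order `q`.

4. Let `H` have exponent `5` and `Q` be cyclic of order `m`.  In the regular wreath product the
function `u` with values in `H` has order `5`, and `v = e t` is arbitrary; as in
`TwoGeneratorsMultiplesOfFive`, the group `⟨v, u⟩` involves three given elements of `H`.  If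
`m ≥ 3`, the function `u` can take three values and one may take for `v` the generator `t` of `Q`,
of order `m`.
-/

set_option autoImplicit false

namespace Pool.Agent.Results.MP_544bd1_al.SecondGeneratorPrimeOrder

open Pool.Agent.H32BU Pool.Agent.N6.Pf Pool.Agent.N6.Pg

universe u

/-- `n ∈ 𝓛`: every group satisfying `x ^ n = 1` is locally finite. -/
def InL (n : ℕ) : Prop := ∀ (G : Type u) [Group G], (∀ x : G, x ^ n = 1) →
  ∀ S : Set G, S.Finite → Finite (Subgroup.closure S)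

/-- The largest group of exponent dividing `n` generated by two elements `x₀, x₁` with
`x₁ ^ s = 1`: the quotient of the free Burnside group `B_{2,n}` by the normal closure of `x₁ ^ s`. -/
abbrev P (n s : ℕ) : Type :=
  FreeGroup (Fin 2) ⧸ Subgroup.normalClosure
    ((Set.range fun w : FreeGroup (Fin 2) => w ^ n) ∪ {FreeGroup.of 1 ^ s})

/-- The largest group of exponent dividing `n` generated by two elements `x₀, x₁` with
`x₀ ^ r = 1` and `x₁ ^ s = 1`. -/
abbrev P2 (n r s : ℕ) : Type :=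
  FreeGroup (Fin 2) ⧸ Subgroup.normalClosure
    ((Set.range fun w : FreeGroup (Fin 2) => w ^ n) ∪ {FreeGroup.of 0 ^ r, FreeGroup.of 1 ^ s})

/-- `n` is not divisible by `2 ^ m * (2 ^ m - 1) ^ 2` for any `m ≥ 2` for which `2 ^ m - 1` is a
prime. -/
def Unexceptional (n : ℕ) : Prop :=
  ∀ m : ℕ, 2 ≤ m → (2 ^ m - 1).Prime → ¬ 2 ^ m * (2 ^ m - 1) ^ 2 ∣ n

theorem ne_of {q a b : ℕ} (hq : q.Prime) (h : Unexceptional (2 ^ a * q ^ b)) : Ne q a b := by
  intro m h1 h2 h3
  by_contra hb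
  push Not at hb
  subst h3
  exact h m h1 hq (Nat.mul_dvd_mul (pow_dvd_pow 2 h2) (pow_dvd_pow _ (by omega)))

theorem inL_of_dvd {n d : ℕ} (h : d ∣ n) (hL : InL.{u} n) : InL.{u} d := by
  obtain ⟨c, rfl⟩ := h
  exact fun G _ hG => hL G fun x => by rw [pow_mul, hG, one_pow]

theorem p_finite {n : ℕ} (h : InL.{u} n) (s : ℕ) : Finite (P n s) :=
  bq_finite ((inL_iff x_LFD n).1 h) s

theorem group_level {q a b : ℕ} (hq : q.Prime) (hq2 : q ≠ 2) (hE : Unexceptional (2 ^ a * q ^ b))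
    (G : Type u) [Group G] (hG : ∀ x : G, x ^ (2 ^ a * q ^ b) = 1)
    (h2 : ∀ x y : G, (y ^ 2 ^ a = 1 ∨ y ^ q = 1) → Finite (Subgroup.closure {x, y}))
    (hnt : Nontrivial G) : ∃ N : Subgroup G, N.Normal ∧ N ≠ ⊥ ∧
      ((∀ x ∈ N, x ^ 2 ^ a = 1) ∨ ∀ x ∈ N, x ^ q ^ b = 1) := by
  have hG' : ∀ x : G, x ^ (q ^ b * 2 ^ a) = 1 := by
    intro x
    rw [mul_comm]
    exact hG x
  exact exists_normal hq hq2 (ne_of hq hE) G hG'
    (fun x y hy => h2 x y (pq_cases hq hq2 (hG' y) hy)) hnt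

theorem crit {q a b : ℕ} (hq : q.Prime) (hq2 : q ≠ 2) (hE : Unexceptional (2 ^ a * q ^ b)) :
    InL.{u} (2 ^ a * q ^ b) ↔ InL.{u} (2 ^ a) ∧ InL.{u} (q ^ b) ∧
      Finite (P (2 ^ a * q ^ b) (2 ^ a)) ∧ Finite (P (2 ^ a * q ^ b) q) := by
  refine ⟨fun h => ⟨inL_of_dvd (dvd_mul_right _ _) h, inL_of_dvd (dvd_mul_left _ _) h,
    p_finite h _, p_finite h _⟩, ?_⟩
  rintro ⟨h1, h2, h3, h4⟩
  refine (inL_iff x_LFD _).2 ?_
  rw [mul_comm] at h3 h4 ⊢
  exact locfin_g hq hq2 (ne_of hq hE) ((inL_iff x_LFD _).1 h1) ((inL_iff x_LFD _).1 h2) h3 h4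

theorem ue_small {q a b : ℕ} (hq : q.Prime) (hq2 : q ≠ 2) (hab : a ≤ 1 ∨ b ≤ 1 ∨ q = 5) :
    Unexceptional (2 ^ a * q ^ b) := by
  intro m h1 h2 h3
  have hodd : Odd (2 ^ m - 1) := by
    have h4 : 2 ≤ 2 ^ m := Nat.le_self_pow (by omega) 2
    have hev : Even (2 ^ m) := Nat.even_pow.2 ⟨even_two, by omega⟩
    exact Nat.Even.sub_odd (by omega) hev odd_one
  have hc : Nat.Coprime (2 ^ m - 1) 2 := (Nat.coprime_two_right).2 hodd
  have h5 : (2 ^ m - 1) ^ 2 ∣ q ^ b := by
    have h6 : (2 ^ m - 1) ^ 2 ∣ 2 ^ a * q ^ b := (dvd_mul_left _ _).trans h3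
    exact (Nat.Coprime.pow 2 a hc).dvd_of_dvd_mul_left h6
  have h7 : 2 ^ m ∣ 2 ^ a := by
    have h6 : 2 ^ m ∣ 2 ^ a * q ^ b := (dvd_mul_right _ _).trans h3
    have h8 : Nat.Coprime (2 ^ m) (q ^ b) := Nat.Coprime.pow _ _
      ((Nat.coprime_primes Nat.prime_two hq).2 hq2.symm)
    exact h8.dvd_of_dvd_mul_right h6
  have h9 : m ≤ a := (Nat.pow_dvd_pow_iff_le_right (by norm_num)).1 h7
  have h10 : 2 ^ m - 1 = q := (Nat.prime_dvd_prime_iff_eq h2 hq).1
    (h2.dvd_of_dvd_pow ((dvd_pow_self _ two_ne_zero).trans h5))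
  rw [h10] at h5
  have h11 : 2 ≤ b := (Nat.pow_dvd_pow_iff_le_right hq.one_lt).1 h5
  rcases hab with h | h | h
  · omega
  · omega
  · rw [h] at h10
    have h12 : 2 ^ m = 6 := by omega
    have h13 : 2 ^ 2 ∣ 2 ^ m := pow_dvd_pow 2 h1
    rw [h12] at h13
    norm_num at h13

theorem L2 : InL.{u} 2 := inL_of_dvd (by norm_num) ((inL_iff x_LFD 4).2 x_L34.2)

theorem L4 : InL.{u} 4 := (inL_iff x_LFD 4).2 x_L34.2

theorem twice {q b : ℕ} (hq : q.Prime) (hq2 : q ≠ 2) :
    InL.{u} (2 * q ^ b) ↔ InL.{u} (q ^ b) ∧ Finite (P (2 * q ^ b) 2) ∧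
      Finite (P (2 * q ^ b) q) := by
  have h := crit.{u} (a := 1) (b := b) hq hq2 (ue_small hq hq2 (Or.inl le_rfl))
  rw [pow_one] at h
  rw [h]
  exact ⟨fun h => h.2, fun h => ⟨L2, h⟩⟩

theorem five {m : ℕ} (hm : 2 ≤ m) (h : Finite (P (5 * m) 5)) : InL.{u} 5 := by
  rw [mul_comm] at h
  exact (inL_iff x_LFD 5).2 (five_of_bq hm h)

theorem five2 {m : ℕ} (hm : 3 ≤ m) (h : Finite (P2 (5 * m) m 5)) : InL.{u} 5 := by
  rw [mul_comm] at h
  exact (inL_iff x_LFD 5).2 (five_of_cq hm h)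

theorem five_mul {a : ℕ} (ha : 1 ≤ a) :
    InL.{u} (2 ^ a * 5) ↔ InL.{u} (2 ^ a) ∧ Finite (P (2 ^ a * 5) (2 ^ a)) ∧
      Finite (P (2 ^ a * 5) 5) := by
  have h := crit.{u} (a := a) (b := 1) Nat.prime_five (by norm_num)
    (ue_small Nat.prime_five (by norm_num) (Or.inr (Or.inr rfl)))
  rw [pow_one] at h
  rw [h]
  refine ⟨fun h => ⟨h.1, h.2.2⟩, fun h => ⟨h.1, ?_, h.2⟩⟩
  refine five.{u} (m := 2 ^ a) (Nat.le_self_pow (by omega) 2) ?_
  rw [mul_comm]
  exact h.2.2

theorem fifteen : InL.{u} 15 ↔ Finite (P 15 3) ∧ Finite (P 15 5) := by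
  refine ⟨fun h => ⟨p_finite h _, p_finite h _⟩, ?_⟩
  rintro ⟨h1, h2⟩
  have hS : PrimePowerSecondGenerator.SquareCondition 15 := by
    have := sqP_small (m := 15) (by decide) (by norm_num) (by norm_num) 0
    rw [pow_zero, one_mul] at this
    exact this
  have hE : ∀ m : ℕ, ¬ PrimePowerSecondGenerator.Exceptional 15 m := by
    rintro m ⟨h3, h4, h5⟩
    have h6 : 2 ∣ 15 := (dvd_pow_self 2 (by omega)).trans ((dvd_mul_right _ _).trans h5)
    norm_num at h6
  have hd : ∀ p k : ℕ, p.Prime → p ^ k ∣ 15 → p ^ k ∣ 3 ∨ p ^ k ∣ 5 := by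
    intro p k hp hk
    by_cases h3 : p = 3
    · left
      subst h3
      exact (Nat.Coprime.pow_left k (by norm_num : Nat.Coprime 3 5)).dvd_of_dvd_mul_right
        (show 3 ^ k ∣ 3 * 5 from hk)
    · right
      exact (Nat.Coprime.pow_left k ((Nat.coprime_primes hp Nat.prime_three).2
        h3)).dvd_of_dvd_mul_left (show p ^ k ∣ 3 * 5 from hk)
  have hc : (15 : ℕ).primeFactors.card ≤ 2 := by
    have h : (15 : ℕ).primeFactors ⊆ {3, 5} := by
      intro p hp
      have h3 := Nat.prime_of_mem_primeFactors hp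
      have h4 : p ∣ 3 * 5 := Nat.dvd_of_mem_primeFactors hp
      rcases h3.dvd_mul.1 h4 with h5 | h5
      · simp [(Nat.prime_dvd_prime_iff_eq h3 Nat.prime_three).1 h5]
      · simp [(Nat.prime_dvd_prime_iff_eq h3 Nat.prime_five).1 h5]
    exact (Finset.card_le_card h).trans (by decide)
  have h5 : InL.{u} 5 := five (m := 3) (by norm_num) h2
  refine (PrimePowerSecondGenerator.crit (n := 15) (by norm_num) hS hE (Or.inl hc)).2 ⟨?_, ?_⟩
  · intro p k hp hk h4
    rcases hd p k hp hk with h | h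
    · exact absurd (Nat.le_of_dvd (by norm_num) h) (by omega)
    · exact inL_of_dvd h h5
  · intro p k hp hk
    rcases hd p k hp hk with h | h
    · exact PrimePowerSecondGenerator.p_mono h h1
    · exact PrimePowerSecondGenerator.p_mono h h2

/-- Let `q` be an odd prime, `n = 2 ^ a * q ^ b`, and suppose that `n` is not divisible by
`2 ^ m * (2 ^ m - 1) ^ 2` for any Mersenne prime `2 ^ m - 1` (this holds if `a ≤ 1`, `b ≤ 1` or
`q = 5`).
(1) Let `G` be a nontrivial group of exponent dividing `n` such that `⟨x, y⟩` is finite for all `x`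
in `G` and all `y` in `G` with `y ^ 2 ^ a = 1` or `y ^ q = 1`. Then `G` has a nontrivial normal
subgroup of exponent dividing `2 ^ a` or `q ^ b`.
(2) `n ∈ 𝓛` if and only if `2 ^ a` and `q ^ b` are in `𝓛` and the quotients `P n (2 ^ a)` and `P n q`
of the free Burnside group `B_{2,n}` are finite.
(3) In particular `2 * q ^ b ∈ 𝓛` if and only if `q ^ b ∈ 𝓛` and the groups `P n 2` and `P n q`,
`n = 2 * q ^ b`, whose second generators have prime order, are finite.
(4) If `P (5 * m) 5` is finite for some `m ≥ 2`, or if `P2 (5 * m) m 5` is finite for some `m ≥ 3`,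
then `5 ∈ 𝓛`.
(5) For `a ≥ 1`, `2 ^ a * 5 ∈ 𝓛` if and only if `2 ^ a ∈ 𝓛` and `P n (2 ^ a)` and `P n 5`,
`n = 2 ^ a * 5`, are finite. So `10 ∈ 𝓛` if and only if `P 10 2` and `P 10 5` are finite, and
`20 ∈ 𝓛` if and only if `P 20 4` and `P 20 5` are. `15 ∈ 𝓛` if and only if `P 15 3` and `P 15 5` are
finite. -/
theorem result :
    (∀ q a b : ℕ, q.Prime → q ≠ 2 → (a ≤ 1 ∨ b ≤ 1 ∨ q = 5) → Unexceptional (2 ^ a * q ^ b)) ∧
    (∀ q a b : ℕ, q.Prime → q ≠ 2 → Unexceptional (2 ^ a * q ^ b) →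
      (∀ (G : Type u) [Group G], (∀ x : G, x ^ (2 ^ a * q ^ b) = 1) →
        (∀ x y : G, (y ^ 2 ^ a = 1 ∨ y ^ q = 1) → Finite (Subgroup.closure {x, y})) →
        Nontrivial G → ∃ N : Subgroup G, N.Normal ∧ N ≠ ⊥ ∧
          ((∀ x ∈ N, x ^ 2 ^ a = 1) ∨ ∀ x ∈ N, x ^ q ^ b = 1)) ∧
      (InL.{u} (2 ^ a * q ^ b) ↔ InL.{u} (2 ^ a) ∧ InL.{u} (q ^ b) ∧
        Finite (P (2 ^ a * q ^ b) (2 ^ a)) ∧ Finite (P (2 ^ a * q ^ b) q))) ∧
    (∀ q b : ℕ, q.Prime → q ≠ 2 → (InL.{u} (2 * q ^ b) ↔ InL.{u} (q ^ b) ∧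
      Finite (P (2 * q ^ b) 2) ∧ Finite (P (2 * q ^ b) q))) ∧
    (∀ m : ℕ, 2 ≤ m → Finite (P (5 * m) 5) → InL.{u} 5) ∧
    (∀ m : ℕ, 3 ≤ m → Finite (P2 (5 * m) m 5) → InL.{u} 5) ∧
    (∀ a : ℕ, 1 ≤ a → (InL.{u} (2 ^ a * 5) ↔ InL.{u} (2 ^ a) ∧
      Finite (P (2 ^ a * 5) (2 ^ a)) ∧ Finite (P (2 ^ a * 5) 5))) ∧
    (InL.{u} 10 ↔ Finite (P 10 2) ∧ Finite (P 10 5)) ∧
    (InL.{u} 20 ↔ Finite (P 20 4) ∧ Finite (P 20 5)) ∧
    (InL.{u} 15 ↔ Finite (P 15 3) ∧ Finite (P 15 5)) := by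
  refine ⟨fun q a b hq hq2 h => ue_small hq hq2 h, fun q a b hq hq2 hE =>
    ⟨fun G _ hG h2 hnt => group_level hq hq2 hE G hG h2 hnt, crit hq hq2 hE⟩,
    fun q b hq hq2 => twice hq hq2, fun m hm h => five hm h, fun m hm h => five2 hm h,
    fun a ha => five_mul ha, ?_, ?_, fifteen⟩
  · have h := five_mul.{u} (a := 1) le_rfl
    norm_num at h
    rw [h]
    exact ⟨fun h => h.2, fun h => ⟨L2, h⟩⟩
  · have h := five_mul.{u} (a := 2) (by norm_num)
    norm_num at h
    rw [h]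
    exact ⟨fun h => h.2, fun h => ⟨L4, h⟩⟩

end Pool.Agent.Results.MP_544bd1_al.SecondGeneratorPrimeOrder
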