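import Mathlib
import Pool.Agent.N6.TrL

/-!
# Two generators decide local finiteness: all even parts, under a condition on element orders or on
# the `2`-length, and more odd parts

The earlier result `TwoGenerators` excludes the exponents divisible by `2 ^ m * (2 ^ m - 1) ^ 2` for
some `m ≥ 2` (for instance `36` and `392`), because of the exceptional case of Theorem B of Hall and
Higman, and those with more than two odd primes whose square divides `n`.  Here both restrictions
are relaxed.

1. (`Pool.Agent.N6.HHE`, `Pool.Agent.N6.NoCx`.)  Let `x` have order `2 ^ α`, let `V` be an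
elementary abelian normal `2`-subgroup of `F`, `L / V` a `q`-subgroup acting faithfully on `V` and
normalised by `x`, and let all elements of `F` have order dividing `n`, where `2 ^ α` is the
`2`-part of `n`.  The proof of the theorem of Hall and Higman shows: if `z = x ^ (2 ^ (α - 1))` does
not centralise `L / V`, then for some `m` with `q = 2 ^ m - 1` the element `x ^ (2 ^ (α - m))`
commutes modulo the kernel of an irreducible constituent with a commutator of `L / V` which acts
there as a scalar different from `1`; as the orders are coprime, it commutes with a nontrivial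
element of `L / V`.  So there is an element of order `2 ^ m * q`.

2. (`Pool.Agent.N6.TrN`.)  Hence, if there are no elements of these orders (or if the two-generator
subgroups have `2`-length at most one), the elements `x ^ (2 ^ (α - 1))` lie in `O_{2',2}(E)` for all
finite soluble subgroups `E` which contain them, and the induction of `TwoGenerators` applies: a
group without nontrivial normal subgroups of prime power exponent has odd exponent.

3. Let `n` be odd, and let `p` be the least prime whose square divides `n`.  An element of order `p`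
which lies in `O_{p',p}(E)` for all finite soluble `E` containing it acts nontrivially on an
elementary abelian `s`-group, irreducibly and not by scalars; so `s ^ 2 ∣ n` and `p ∤ s - 1`.  By the
condition on `n` this determines `s`: it is the least such prime `q > p`, and similarly elements of
order `q` of this kind act nontrivially only on `p`-groups.  So the arguments of `TwoGenerators` for
two primes apply to the pair `p, q`.
-/

set_option autoImplicit false

namespace Pool.Agent.Results.MP_544bd1_al.TwoGeneratorsElementOrders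

open Pool.Agent.H32BU Pool.Agent.TH69.Og Pool.Agent.N6.TrN

universe u

/-- `n ∈ 𝓛`: every group satisfying `x ^ n = 1` is locally finite. -/
def InL (n : ℕ) : Prop := ∀ (G : Type u) [Group G], (∀ x : G, x ^ n = 1) →
  ∀ S : Set G, S.Finite → Finite (Subgroup.closure S)

/-- The free Burnside group `B_{m,n}`: the free group of rank `m` modulo the normal closure of all
`n`-th powers. -/
abbrev B (m n : ℕ) : Type :=
  FreeGroup (Fin m) ⧸ Subgroup.normalClosure (Set.range fun w : FreeGroup (Fin m) => w ^ n)

/-- Every prime power greater than `4` dividing `n` is in `𝓛`. -/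
def PrimePowersInL (n : ℕ) : Prop :=
  ∀ p k : ℕ, p.Prime → p ^ k ∣ n → 4 < p ^ k → InL.{u} (p ^ k)

/-- The condition on `n`: if `p < q < r` are odd primes whose squares divide `n`, then `p` divides
`r - 1`, and `p` divides `q - 1` or `q` divides `r - 1`. (It holds if there are at most two odd primes
whose square divides `n`.) -/
def SquareCondition (n : ℕ) : Prop := ∀ p q r : ℕ, p.Prime → q.Prime → r.Prime → 2 < p → p < q →
  q < r → p ^ 2 ∣ n → q ^ 2 ∣ n → r ^ 2 ∣ n → p ∣ r - 1 ∧ (p ∣ q - 1 ∨ q ∣ r - 1)

/-- `m` is exceptional for `n`: `m ≥ 2`, `2 ^ m - 1` is a prime, and `n` is divisible by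
`2 ^ m * (2 ^ m - 1) ^ 2`. (For `n = 36`: only `m = 2`; for `n = 392`: only `m = 3`.) -/
def Exceptional (n m : ℕ) : Prop :=
  2 ≤ m ∧ (2 ^ m - 1).Prime ∧ 2 ^ m * (2 ^ m - 1) ^ 2 ∣ n

/-- The `2`-length of `K` is at most one: there are normal subgroups `A ≤ B` of `K` such that the
elements of `A` and of `K / B` have odd order and `B / A` is a `2`-group. -/
def TwoLengthAtMostOne (K : Type u) [Group K] : Prop := ∃ A B : Subgroup K, A.Normal ∧ B.Normal ∧
  A ≤ B ∧ (∀ x ∈ A, Odd (orderOf x)) ∧ (∀ x ∈ B, ∃ k : ℕ, x ^ 2 ^ k ∈ A) ∧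
  ∀ x : K, ∃ k : ℕ, Odd k ∧ x ^ k ∈ B

/-- The condition on the group `G`: it has no element of order `2 ^ m * (2 ^ m - 1)` for any `m` which
is exceptional for `n`, or all its two-generator subgroups have `2`-length at most one. -/
def GroupCondition (n : ℕ) (G : Type u) [Group G] : Prop :=
  (∀ m : ℕ, Exceptional n m → ∀ g : G, orderOf g ≠ 2 ^ m * (2 ^ m - 1)) ∨
    ∀ x y : G, TwoLengthAtMostOne (Subgroup.closure {x, y})

theorem gd_of {n : ℕ} {G : Type u} [Group G] (h : GroupCondition n G) : Gd n G :=
  h.imp (fun h m h1 h2 h3 => h m ⟨h1, h2, h3⟩) id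

theorem b_finite_of_inL {n : ℕ} (h : InL.{u} n) (m : ℕ) : Finite (B m n) :=
  x_LFD.2.1 n m ((inL_iff x_LFD n).1 h)

theorem main {n : ℕ} (hn : 1 ≤ n) (hS : SquareCondition n) (G : Type u) [Group G]
    (hG : ∀ x : G, x ^ n = 1) (h2 : ∀ x y : G, Finite (Subgroup.closure {x, y}))
    (hs : n.primeFactors.card ≤ 2 ∨ ∀ x y : G, Group.IsSolvable (Subgroup.closure {x, y}))
    (hC : GroupCondition n G) :
    (Nontrivial G → ∃ p k : ℕ, p.Prime ∧ p ^ k ∣ n ∧
      ∃ N : Subgroup G, N.Normal ∧ N ≠ ⊥ ∧ ∀ x ∈ N, x ^ p ^ k = 1) ∧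
    (PrimePowersInL.{u} n → ∀ S : Set G, S.Finite → Finite (Subgroup.closure S)) := by
  have hn0 : n ≠ 0 := by omega
  have T : TrG n := trG_of hn0 hS
  exact ⟨fun hnt => exists_normalG T G hG h2 hs (gd_of hC) hnt, fun hL S hS =>
    lf_trG_u hn0 T (locfin_qp hL) G hG h2 hs (gd_of hC) S hS⟩

theorem dvd36 {p k : ℕ} (hp : p.Prime) (h : p ^ k ∣ 36) : p ^ k ∣ 4 ∨ p ^ k ∣ 9 := by
  by_cases h2 : p = 2
  · left
    subst h2
    have h3 : Nat.Coprime (2 ^ k) 9 := Nat.Coprime.pow_left _ (by norm_num)
    exact h3.dvd_of_dvd_mul_right (show 2 ^ k ∣ 4 * 9 from h)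
  · right
    have h3 : Nat.Coprime (p ^ k) (2 ^ 2) := Nat.Coprime.pow _ _
      ((Nat.coprime_primes hp Nat.prime_two).2 h2)
    exact h3.dvd_of_dvd_mul_left (show p ^ k ∣ 2 ^ 2 * 9 from h)

theorem sq36 : SquareCondition 36 := by
  have := sq_small (m := 9) (by decide) (by norm_num) 2
  exact this

theorem exc36 {m : ℕ} (h : Exceptional 36 m) : m = 2 := by
  obtain ⟨h1, h2, h3⟩ := h
  have h4 : m < 6 := by
    by_contra h5
    have h6 : 2 ^ 6 ≤ 2 ^ m := Nat.pow_le_pow_right (by norm_num) (by omega)
    have h7 : 0 < (2 ^ m - 1) ^ 2 := by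
      apply Nat.pow_pos
      have : 2 ^ 6 = 64 := by norm_num
      omega
    have h8 := Nat.le_of_dvd (by norm_num) h3
    have h9 : 2 ^ m ≤ 2 ^ m * (2 ^ m - 1) ^ 2 := Nat.le_mul_of_pos_right _ h7
    have : 2 ^ 6 = 64 := by norm_num
    omega
  interval_cases m
  · rfl
  all_goals exact absurd h3 (by norm_num)

theorem card36 : (36 : ℕ).primeFactors.card ≤ 2 := by
  have h : (36 : ℕ).primeFactors ⊆ {2, 3} := by
    intro p hp
    have h1 := Nat.prime_of_mem_primeFactors hp
    have h2 : p ∣ 2 ^ 2 * 3 ^ 2 := Nat.dvd_of_mem_primeFactors hp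
    rcases h1.dvd_mul.1 h2 with h3 | h3
    · have := (Nat.prime_dvd_prime_iff_eq h1 Nat.prime_two).1 (h1.dvd_of_dvd_pow h3)
      simp [this]
    · have := (Nat.prime_dvd_prime_iff_eq h1 Nat.prime_three).1 (h1.dvd_of_dvd_pow h3)
      simp [this]
  exact (Finset.card_le_card h).trans (by decide)

/-- (0) If `m` is odd and `m < 11025`, then `2 ^ a * m` satisfies `SquareCondition` for all `a`. (So
this condition holds for all `n` whose greatest odd divisor is less than `665`.)
Let `n ≥ 1` satisfy `SquareCondition`.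
(1) Let `G` be a group of exponent dividing `n` all of whose two-generator subgroups are finite, and
also soluble if `n` has more than two prime divisors, and let `G` satisfy `GroupCondition`. If `G` is
nontrivial, then `G` has a nontrivial normal subgroup whose exponent divides a prime power dividing
`n`. If all prime powers greater than `4` dividing `n` are in `𝓛`, then `G` is locally finite.
(2) Suppose that no `m` is exceptional for `n`, and that the two-generator free Burnside group
`B_{2,n}` is soluble or that `n` has at most two prime divisors. Then `n ∈ 𝓛` if and only if all prime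
powers greater than `4` dividing `n` are in `𝓛` and `B_{2,n}` is finite.
(3) Let `G` be a group of exponent dividing `36` without elements of order `12` all of whose
two-generator subgroups are finite. If `G` is nontrivial, then it has a nontrivial normal subgroup of
exponent dividing `4` or `9`. If `9 ∈ 𝓛`, then `G` is locally finite. -/
theorem result :
    (∀ a m : ℕ, Odd m → m < 11025 → SquareCondition (2 ^ a * m)) ∧
    (∀ n : ℕ, 1 ≤ n → SquareCondition n →
      (∀ (G : Type u) [Group G], (∀ x : G, x ^ n = 1) →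
        (∀ x y : G, Finite (Subgroup.closure {x, y})) →
        (n.primeFactors.card ≤ 2 ∨ ∀ x y : G, Group.IsSolvable (Subgroup.closure {x, y})) →
        GroupCondition n G →
        (Nontrivial G → ∃ p k : ℕ, p.Prime ∧ p ^ k ∣ n ∧
          ∃ N : Subgroup G, N.Normal ∧ N ≠ ⊥ ∧ ∀ x ∈ N, x ^ p ^ k = 1) ∧
        (PrimePowersInL.{u} n → ∀ S : Set G, S.Finite → Finite (Subgroup.closure S))) ∧
      ((∀ m : ℕ, ¬ Exceptional n m) → n.primeFactors.card ≤ 2 ∨ Group.IsSolvable (B 2 n) →
        (InL.{u} n ↔ PrimePowersInL.{u} n ∧ Finite (B 2 n)))) ∧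
    (∀ (G : Type u) [Group G], (∀ x : G, x ^ 36 = 1) → (∀ x : G, orderOf x ≠ 12) →
      (∀ x y : G, Finite (Subgroup.closure {x, y})) →
      (Nontrivial G → ∃ N : Subgroup G, N.Normal ∧ N ≠ ⊥ ∧
        ((∀ x ∈ N, x ^ 4 = 1) ∨ ∀ x ∈ N, x ^ 9 = 1)) ∧
      (InL.{u} 9 → ∀ S : Set G, S.Finite → Finite (Subgroup.closure S))) := by
  refine ⟨fun a m hm hm2 => sq_small hm hm2 a, fun n hn hS => ⟨fun G _ hG h2 hs hC =>
    main hn hS G hG h2 hs hC, fun hE hs => ⟨fun h => ⟨?_, b_finite_of_inL h 2⟩, ?_⟩⟩,
    fun G _ hG ho h2 => ?_⟩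
  · rintro p k - ⟨c, hc⟩ - G _ hG
    exact h G fun x => by rw [hc, pow_mul, hG, one_pow]
  · rintro ⟨h1, h2⟩
    have hn0 : n ≠ 0 := by omega
    exact (inL_iff x_LFD _).2 (locfin_trG hn0 (trG_of hn0 hS)
      (fun m h3 h4 h5 => hE m ⟨h3, h4, h5⟩) (locfin_qp h1) hs h2)
  · obtain ⟨h3, h4⟩ := main (n := 36) (by norm_num) sq36 G hG h2 (Or.inl card36) (Or.inl (by
      intro m hm g
      rw [exc36 hm]
      exact ho g))
    refine ⟨fun hnt => ?_, fun h9 S hS => h4 ?_ S hS⟩
    · obtain ⟨p, k, hp, hk, N, hN, hN1, hN2⟩ := h3 hnt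
      refine ⟨N, hN, hN1, ?_⟩
      rcases dvd36 hp hk with ⟨c, hc⟩ | ⟨c, hc⟩
      · left
        intro x hx
        rw [hc, pow_mul, hN2 x hx, one_pow]
      · right
        intro x hx
        rw [hc, pow_mul, hN2 x hx, one_pow]
    · intro p k hp hk h5 H _ hH
      rcases dvd36 hp hk with h6 | ⟨c, hc⟩
      · exact absurd (Nat.le_of_dvd (by norm_num) h6) (by omega)
      · exact h9 H fun x => by rw [hc, pow_mul, hH, one_pow]

end Pool.Agent.Results.MP_544bd1_al.TwoGeneratorsElementOrders
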